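import Pool.Agent.Q130.TC.Stm
import Pool.Agent.H352R3.SA.Bnd

/-!
BMP: one bump; basic facts about the densities `om`.
-/

set_option autoImplicit false

namespace Pool.Agent.Q216.TC

open MeasureTheory Set Metric Filter Topology
open scoped ComplexConjugate
open Pool.Agent.H352R3.SA (Den pot LK Gam)
open Pool.Agent.Q130.TC

theorem om_nonneg (Y : Finset ℂ) {ε : ℝ} (hε : 0 < ε) (z : ℂ) : 0 ≤ om Y ε z :=
  mul_nonneg (inv_nonneg.2 hε.le) (le_max_left _ _)

theorem om_den (Y : Finset ℂ) (hY : Y.Nonempty) {ε : ℝ} (hε : 0 < ε) : Den (om Y ε) := by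
  refine ⟨?_, ?_, om_nonneg Y hε⟩
  · unfold om
    have h1 := Metric.continuous_infDist_pt (Y : Set ℂ)
    fun_prop
  · obtain ⟨R, hR⟩ := (Y.finite_toSet.isBounded).subset_closedBall (0 : ℂ)
    refine HasCompactSupport.intro (isCompact_closedBall (0 : ℂ) (R + 2 * ε)) fun z hz => ?_
    rw [mem_closedBall_zero_iff, not_le] at hz
    have h1 : 2 * ε ≤ infDist z (Y : Set ℂ) := by
      rw [Metric.le_infDist (by simpa using hY)]
      intro y hy
      have h2 : ‖y‖ ≤ R := by
        have := hR hy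
        rwa [mem_closedBall_zero_iff] at this
      rw [dist_eq_norm]
      have h3 := norm_sub_norm_le z y
      linarith
    unfold om
    have h2 : 2 ≤ infDist z (Y : Set ℂ) / ε := by
      rw [le_div_iff₀ hε]
      exact h1
    rw [max_eq_left ((min_le_right _ _).trans (by linarith)), mul_zero]

theorem om_mono {Y' Y : Finset ℂ} (h : Y' ⊆ Y) (hY' : Y'.Nonempty) {ε : ℝ} (hε : 0 < ε) (z : ℂ) :
    om Y' ε z ≤ om Y ε z := by
  unfold om
  refine mul_le_mul_of_nonneg_left ?_ (inv_nonneg.2 hε.le)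
  refine max_le_max le_rfl (min_le_min le_rfl ?_)
  have h1 : infDist z (Y : Set ℂ) ≤ infDist z (Y' : Set ℂ) :=
    Metric.infDist_le_infDist_of_subset (by exact_mod_cast h) (by simpa using hY')
  have h2 := div_le_div_of_nonneg_right h1 hε.le
  linarith

/-- the profile -/
noncomputable def prf (w : ℂ) : ℝ := max 0 (min 1 (2 - 2 * ‖w‖))

theorem prf_cont : Continuous prf := by
  unfold prf
  fun_prop

theorem prf_nonneg (w : ℂ) : 0 ≤ prf w := le_max_left _ _

theorem prf_le (w : ℂ) : prf w ≤ 1 := max_le zero_le_one (min_le_left _ _)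

theorem prf_zero {w : ℂ} (h : 1 ≤ ‖w‖) : prf w = 0 := by
  unfold prf
  exact max_eq_left ((min_le_right _ _).trans (by linarith))

theorem prf_supp : HasCompactSupport prf :=
  HasCompactSupport.intro (isCompact_closedBall (0 : ℂ) 1) fun z hz => by
    rw [mem_closedBall_zero_iff, not_le] at hz
    exact prf_zero hz.le

theorem prf_pos : 0 < ∫ w, prf w :=
  prf_cont.integral_pos_of_hasCompactSupport_nonneg_nonzero prf_supp prf_nonneg (x := 0) (by
    unfold prf
    simp)

/-- change of variables -/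
theorem scale {E : Type} [NormedAddCommGroup E] [NormedSpace ℝ E] (F : ℂ → E) (y : ℂ) {ε : ℝ}
    (hε : 0 < ε) : ∫ w, F (ε⁻¹ • (w - y)) = ε ^ 2 • ∫ w, F w := by
  rw [integral_sub_right_eq_self (fun w => F (ε⁻¹ • w)) y, Measure.integral_comp_smul,
    Complex.finrank_real_complex]
  congr 1
  rw [inv_pow, inv_inv, abs_of_pos (by positivity)]

theorem bmp (h : S_VAR) : S_BMP := by
  obtain ⟨C, hC0, hC⟩ := Pool.Agent.H352R3.SA.pot_bound 1
  have hCb : ∀ z, ‖pot (fun w => (prf w : ℂ)) z‖ ≤ C := by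
    intro z
    have h1 := hC (fun w => (prf w : ℂ)) 1 (Complex.continuous_ofReal.comp prf_cont)
      (fun w hw => by rw [prf_zero hw.le, Complex.ofReal_zero])
      (fun w => by
        rw [Complex.norm_real, Real.norm_of_nonneg (prf_nonneg w)]
        exact prf_le w) z
    linarith
  set m := ∫ w, prf w with hm
  have hm0 : 0 < m := prf_pos
  obtain ⟨t, ht0, ht1, htm, htC⟩ : ∃ t : ℝ, 0 < t ∧ t ≤ 1 ∧ t * m ≤ 1 ∧ t * C ≤ 1 / 4 := by
    refine ⟨min 1 (min (1 / m) (1 / (4 * (C + 1)))), by positivity, min_le_left _ _, ?_, ?_⟩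
    · have h1 : min 1 (min (1 / m) (1 / (4 * (C + 1)))) ≤ 1 / m :=
        (min_le_right _ _).trans (min_le_left _ _)
      calc _ ≤ 1 / m * m := mul_le_mul_of_nonneg_right h1 hm0.le
        _ = 1 := by field_simp
    · have h1 : min 1 (min (1 / m) (1 / (4 * (C + 1)))) ≤ 1 / (4 * (C + 1)) :=
        (min_le_right _ _).trans (min_le_right _ _)
      calc _ ≤ 1 / (4 * (C + 1)) * C := mul_le_mul_of_nonneg_right h1 hC0
        _ ≤ 1 / (4 * (C + 1)) * (C + 1) := mul_le_mul_of_nonneg_left (by linarith) (by positivity)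
        _ = 1 / 4 := by field_simp
  refine ⟨t * m, by positivity, ?_⟩
  intro y ε hε
  set g : ℂ → ℝ := fun w => t * ε⁻¹ * prf (ε⁻¹ • (w - y)) with hg
  have hg0 : ∀ z, 0 ≤ g z := fun z => mul_nonneg (by positivity) (prf_nonneg _)
  have hgz : ∀ z, ε < ‖z - y‖ → g z = 0 := by
    intro z hz
    rw [hg]
    simp only
    rw [prf_zero, mul_zero]
    rw [norm_smul, Real.norm_of_nonneg (by positivity), inv_mul_eq_div, one_le_div hε]
    exact hz.le
  have hgc : Continuous g := by
    have h1 := prf_cont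
    rw [hg]
    fun_prop
  have hgs : HasCompactSupport g := by
    refine HasCompactSupport.intro (isCompact_closedBall y ε) fun z hz => ?_
    rw [mem_closedBall, dist_eq_norm, not_le] at hz
    exact hgz z hz
  have hD : Den g := ⟨hgc, hgs, hg0⟩
  have hint : ∫ z, g z = t * ε * m := by
    have h1 := scale (fun w => prf w) y hε
    rw [← hm, smul_eq_mul] at h1
    rw [hg, integral_const_mul, h1]
    field_simp
  have hpot : ∀ z, ‖pot (fun w => (g w : ℂ)) z‖ ≤ 1 / 4 := by
    intro z
    have h1 : pot (fun w => (g w : ℂ)) z = (t : ℂ) * pot (fun w => (prf w : ℂ)) (ε⁻¹ • (z - y)) := by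
      unfold pot
      have h2 : ∀ w, (g w : ℂ) * (z - w)⁻¹ = ((t * ε⁻¹ * ε⁻¹ : ℝ) : ℂ) *
          (fun w' : ℂ => (prf w' : ℂ) * (ε⁻¹ • (z - y) - w')⁻¹) (ε⁻¹ • (w - y)) := by
        intro w
        have h3 : ε⁻¹ • (z - y) - ε⁻¹ • (w - y) = (ε⁻¹ : ℝ) * (z - w) := by
          rw [← smul_sub, Complex.real_smul]
          congr 1
          ring
        simp only [hg]
        rw [h3, mul_inv]
        have h4 : ((ε : ℝ) : ℂ) ≠ 0 := by exact_mod_cast hε.ne'
        push_cast
        field_simp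
      have h5 := scale (fun w' : ℂ => (prf w' : ℂ) * (ε⁻¹ • (z - y) - w')⁻¹) y hε
      rw [integral_congr_ae (Eventually.of_forall h2), integral_const_mul, h5, Complex.real_smul]
      have h4 : ((ε : ℝ) : ℂ) ≠ 0 := by exact_mod_cast hε.ne'
      push_cast
      field_simp
    rw [h1, norm_mul, Complex.norm_real, Real.norm_of_nonneg ht0.le]
    exact (mul_le_mul_of_nonneg_left (hCb _) ht0.le).trans htC
  have hgi : Integrable g := hgc.integrable_of_hasCompactSupport hgs
  refine ⟨g, hD, ?_, ?_, ?_, ?_, ?_⟩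
  · intro z
    by_cases hz : ‖z - y‖ ≤ ε
    · unfold om
      have h1 : infDist z ((({y} : Finset ℂ)) : Set ℂ) = ‖z - y‖ := by
        rw [Finset.coe_singleton, infDist_singleton, dist_eq_norm]
      have h2 : ‖z - y‖ / ε ≤ 1 := (div_le_one hε).2 hz
      rw [h1, min_eq_left (by linarith), max_eq_right zero_le_one, mul_one, hg]
      simp only
      have h3 := prf_le (ε⁻¹ • (z - y))
      have h4 := prf_nonneg (ε⁻¹ • (z - y))
      calc t * ε⁻¹ * prf (ε⁻¹ • (z - y)) ≤ 1 * ε⁻¹ * 1 := by gcongr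
        _ = ε⁻¹ := by ring
    · rw [hgz z (not_le.1 hz)]
      exact om_nonneg _ hε z
  · intro z hz
    by_contra h1
    exact hz (hgz z (not_le.1 h1))
  · rw [hint]
    apply le_of_eq
    ring
  · rw [hint]
    calc t * ε * m = (t * m) * ε := by ring
      _ ≤ 1 * ε := mul_le_mul_of_nonneg_right htm hε.le
      _ = ε := one_mul ε
  · have h1 := h g hD (fun w => (g w : ℂ)) (Complex.continuous_ofReal.comp hgc)
      (hgs.comp_left (g := fun x : ℝ => (x : ℂ)) Complex.ofReal_zero) g hgc hgs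
      (fun z => by rw [Complex.norm_real, Real.norm_of_nonneg (hg0 z), sq]) hg0
    have h2 : (∫ z, (g z : ℂ)).re = ∫ z, g z := by
      rw [integral_complex_ofReal, Complex.ofReal_re]
    have h3 : ∫ z, ‖pot (fun w => (g w : ℂ)) z‖ ^ 2 * g z ≤ ∫ z, 1 / 16 * g z := by
      refine integral_mono_of_nonneg (Eventually.of_forall fun z => by
        have := hg0 z
        positivity) (hgi.const_mul _) (Eventually.of_forall fun z => ?_)
      simp only
      refine mul_le_mul_of_nonneg_right ?_ (hg0 z)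
      have h4 := pow_le_pow_left₀ (norm_nonneg _) (hpot z) 2
      linarith
    rw [integral_const_mul] at h3
    rw [h2] at h1
    have h4 : 0 ≤ ∫ z, g z := integral_nonneg hg0
    linarith

end Pool.Agent.Q216.TC
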