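import Pool.Agent.Q130.TC.Stm
import Pool.Agent.Y948.RO.HT

/-!
CAU: basic facts about Cauchy transforms of finite measures. The proof follows
`Pool/Agent/Y108/RO/CTG.lean`.
-/

set_option autoImplicit false

namespace Pool.Agent.Q216.TC

open MeasureTheory Set Metric Filter Topology
open scoped ENNReal NNReal
open Pool.Agent.Q130.TC
open Pool.Agent.Y271.RO (ht Bd)
open Pool.Agent.Y948.RO (area_bound')

section

variable {S : Type} [MeasurableSpace S] {μ : Measure S}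

theorem enorm_inv_le (a : ℂ) : ‖a⁻¹‖ₑ ≤ ‖a‖ₑ⁻¹ := by
  by_cases h : a = 0
  · simp [h]
  · rw [enorm_inv h]

theorem meas_K {φ k : S → ℂ} (hφ : Measurable φ) (hk : Measurable k) :
    Measurable (fun p : ℂ × S => k p.2 * (p.1 - φ p.2)⁻¹) :=
  (hk.comp measurable_snd).mul (measurable_fst.sub (hφ.comp measurable_snd)).inv

theorem meas_cau [SigmaFinite μ] {φ k : S → ℂ} (hφ : Measurable φ) (hk : Measurable k) :
    Measurable (cau μ φ k) :=
  (StronglyMeasurable.integral_prod_right (f := fun (z : ℂ) (s : S) => k s * (z - φ s)⁻¹)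
    (meas_K hφ hk).stronglyMeasurable).measurable

/-- the potential of `|k|` -/
noncomputable def pk (μ : Measure S) (φ k : S → ℂ) (z : ℂ) : ℝ≥0∞ :=
  ∫⁻ s, ‖k s * (z - φ s)⁻¹‖ₑ ∂μ

theorem meas_pk [SigmaFinite μ] {φ k : S → ℂ} (hφ : Measurable φ) (hk : Measurable k) :
    Measurable (pk μ φ k) :=
  (meas_K hφ hk).enorm.lintegral_prod_right'

theorem pk_ball [SigmaFinite μ] {φ k : S → ℂ} (hφ : Measurable φ) (hk : Measurable k)
    {r : ℝ} {C : ℝ≥0} (hC : ∀ c w : ℂ, ∫⁻ z in ball c r, ‖z - w‖ₑ⁻¹ ≤ C) (c : ℂ) :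
    ∫⁻ z in ball c r, pk μ φ k z ≤ C * ∫⁻ s, ‖k s‖ₑ ∂μ := by
  unfold pk
  rw [lintegral_lintegral_swap ((meas_K hφ hk).enorm.aemeasurable)]
  rw [← lintegral_const_mul' _ _ ENNReal.coe_ne_top]
  refine lintegral_mono fun s => ?_
  simp only [enorm_mul]
  rw [lintegral_const_mul' _ _ enorm_ne_top, mul_comm]
  refine mul_le_mul' ?_ le_rfl
  exact (lintegral_mono fun z => enorm_inv_le _).trans (hC c (φ s))

theorem cau_le (φ k : S → ℂ) (z : ℂ) : ‖cau μ φ k z‖ₑ ≤ pk μ φ k z :=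
  enorm_integral_le_lintegral_enorm _

theorem cau_congr {φ k k' : S → ℂ} (h : k =ᵐ[μ] k') : cau μ φ k = cau μ φ k' := by
  funext z
  unfold cau
  refine integral_congr_ae ?_
  filter_upwards [h] with s hs
  rw [hs]

theorem part1 [SigmaFinite μ] {φ k : S → ℂ} (hφ : Measurable φ) (hkm : Measurable k)
    (hk : Integrable k μ) : Measurable (cau μ φ k) ∧ LocallyIntegrable (cau μ φ k) ∧
      ∀ᵐ z : ℂ, Integrable (fun s => k s * (z - φ s)⁻¹) μ := by
  have hm : Measurable (cau μ φ k) := meas_cau hφ hkm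
  have hfin : ∀ R : ℝ, ∫⁻ z in ball (0:ℂ) R, pk μ φ k z < ⊤ := by
    intro R
    obtain ⟨C, hC⟩ := area_bound' R
    exact (pk_ball hφ hkm hC 0).trans_lt (ENNReal.mul_lt_top ENNReal.coe_lt_top hk.2)
  refine ⟨hm, ?_, ?_⟩
  · rw [locallyIntegrable_iff]
    intro K hK
    obtain ⟨R, hR⟩ := hK.isBounded.subset_ball 0
    have hon : IntegrableOn (cau μ φ k) (ball 0 R) :=
      ⟨hm.aestronglyMeasurable, (lintegral_mono fun z => cau_le φ k z).trans_lt (hfin R)⟩
    exact hon.mono_set hR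
  · have h1 : ∀ n : ℕ, ∀ᵐ z : ℂ, z ∈ ball (0:ℂ) n → pk μ φ k z < ⊤ := fun n => by
      rw [← ae_restrict_iff' measurableSet_ball]
      exact ae_lt_top (meas_pk hφ hkm) (hfin n).ne
    filter_upwards [ae_all_iff.2 h1] with z hz
    obtain ⟨n, hn⟩ := exists_nat_gt ‖z‖
    have h2 := hz n (by rwa [mem_ball_zero_iff])
    refine ⟨?_, h2⟩
    exact (hkm.mul (measurable_const.sub hφ).inv).aestronglyMeasurable

theorem part2 [SigmaFinite μ] {φ k : S → ℂ} (hφ : Measurable φ) (hkm : Measurable k)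
    (hk : Integrable k μ) {r : ℝ} {C : ℝ≥0} (hC : ∀ c w : ℂ, ∫⁻ z in ball c r, ‖z - w‖ₑ⁻¹ ≤ C)
    {c : ℂ} {M : ℝ} {g : ℂ → ℂ} (hg : Bd g c r M) :
      Integrable (fun z => g z * cau μ φ k z) ∧ ∫ z, ‖g z * cau μ φ k z‖ ≤ C * M * ∫ s, ‖k s‖ ∂μ ∧
      ∫ z, g z * cau μ φ k z = ∫ s, k s * ht g (φ s) ∂μ := by
  have hmF : Measurable (fun p : ℂ × S => g p.1 * (k p.2 * (p.1 - φ p.2)⁻¹)) :=
    (hg.meas.comp measurable_fst).mul (meas_K hφ hkm)
  have hle : ∀ z : ℂ, ∫⁻ s, ‖g z * (k s * (z - φ s)⁻¹)‖ₑ ∂μ ≤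
      (ball c r).indicator (fun z => ENNReal.ofReal M * pk μ φ k z) z := by
    intro z
    by_cases h : z ∈ ball c r
    · rw [indicator_of_mem h]
      simp only [enorm_mul (g z)]
      rw [lintegral_const_mul' _ _ enorm_ne_top]
      refine mul_le_mul' ?_ le_rfl
      rw [← ofReal_norm]
      exact ENNReal.ofReal_le_ofReal (hg.bd z)
    · rw [indicator_of_notMem h, hg.supp z h]
      simp
  have htot : ∫⁻ z, ∫⁻ s, ‖g z * (k s * (z - φ s)⁻¹)‖ₑ ∂μ ≤
      ENNReal.ofReal M * (C * ∫⁻ s, ‖k s‖ₑ ∂μ) := by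
    refine (lintegral_mono hle).trans ?_
    rw [lintegral_indicator measurableSet_ball, lintegral_const_mul' _ _ ENNReal.ofReal_ne_top]
    exact mul_le_mul' le_rfl (pk_ball hφ hkm hC c)
  have hfin : ENNReal.ofReal M * (C * ∫⁻ s, ‖k s‖ₑ ∂μ) < ⊤ :=
    ENNReal.mul_lt_top ENNReal.ofReal_lt_top (ENNReal.mul_lt_top ENNReal.coe_lt_top hk.2)
  have hF : Integrable (fun p : ℂ × S => g p.1 * (k p.2 * (p.1 - φ p.2)⁻¹))
      (volume.prod μ) := by
    refine ⟨hmF.aestronglyMeasurable, ?_⟩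
    show ∫⁻ p, ‖g p.1 * (k p.2 * (p.1 - φ p.2)⁻¹)‖ₑ ∂(volume.prod μ) < ⊤
    rw [lintegral_prod _ hmF.enorm.aemeasurable]
    exact htot.trans_lt hfin
  have e1 : ∀ z : ℂ, ∫ s, g z * (k s * (z - φ s)⁻¹) ∂μ = g z * cau μ φ k z := by
    intro z
    rw [integral_const_mul]
    rfl
  have hI : Integrable (fun z => g z * cau μ φ k z) := by
    have h1 := hF.integral_prod_left
    simp only [e1] at h1
    exact h1
  refine ⟨hI, ?_, ?_⟩
  · have h1 : ENNReal.ofReal (∫ z, ‖g z * cau μ φ k z‖) ≤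
        ENNReal.ofReal M * (C * ∫⁻ s, ‖k s‖ₑ ∂μ) := by
      rw [ofReal_integral_norm_eq_lintegral_enorm hI]
      refine le_trans (lintegral_mono fun z => ?_) htot
      rw [← e1]
      exact enorm_integral_le_lintegral_enorm _
    rw [← ofReal_integral_norm_eq_lintegral_enorm hk] at h1
    have h2 : (C : ℝ≥0∞) = ENNReal.ofReal (C : ℝ) := (ENNReal.ofReal_coe_nnreal).symm
    rw [h2, ← ENNReal.ofReal_mul (NNReal.coe_nonneg C), ← ENNReal.ofReal_mul hg.nonneg] at h1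
    have h0 : 0 ≤ ∫ s, ‖k s‖ ∂μ := integral_nonneg fun s => norm_nonneg _
    have h3 := (ENNReal.ofReal_le_ofReal_iff
      (mul_nonneg hg.nonneg (mul_nonneg (NNReal.coe_nonneg C) h0))).1 h1
    linarith [h3, mul_comm M ((C : ℝ) * ∫ s, ‖k s‖ ∂μ)]
  · have h2 := integral_integral_swap
      (f := fun (z : ℂ) (s : S) => g z * (k s * (z - φ s)⁻¹)) hF
    have e2 : ∀ s : S, ∫ z, g z * (k s * (z - φ s)⁻¹) = k s * ht g (φ s) := by
      intro s
      have : ∀ z : ℂ, g z * (k s * (z - φ s)⁻¹) = k s * (g z * (z - φ s)⁻¹) := fun z => by ring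
      simp only [this]
      rw [integral_const_mul]
      rfl
    simp only [e1, e2] at h2
    exact h2

end

theorem cau_main : S_CAU := by
  constructor
  · intro S _ μ _ φ k hφ hk
    have hae := hk.1.ae_eq_mk
    have hk' : Integrable (hk.1.mk k) μ := hk.congr hae
    obtain ⟨h1, h2, h3⟩ := part1 hφ hk.1.stronglyMeasurable_mk.measurable hk'
    rw [cau_congr hae]
    refine ⟨h1, h2, ?_⟩
    filter_upwards [h3] with z hz
    refine hz.congr ?_
    filter_upwards [hae] with s hs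
    rw [hs]
  · intro r _
    obtain ⟨C, hC⟩ := area_bound' r
    refine ⟨C, C.2, ?_⟩
    intro S _ μ _ φ k hφ hk c M g hg
    have hae := hk.1.ae_eq_mk
    have hk' : Integrable (hk.1.mk k) μ := hk.congr hae
    obtain ⟨h1, h2, h3⟩ := part2 hφ hk.1.stronglyMeasurable_mk.measurable hk' hC hg
    rw [cau_congr hae]
    refine ⟨h1, ?_, ?_⟩
    · have h4 : ∫ s, ‖k s‖ ∂μ = ∫ s, ‖hk.1.mk k s‖ ∂μ := by
        refine integral_congr_ae ?_
        filter_upwards [hae] with s hs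
        rw [← hs]
      rw [h4]
      exact h2
    · rw [h3]
      refine integral_congr_ae ?_
      filter_upwards [hae] with s hs
      rw [← hs]

end Pool.Agent.Q216.TC
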