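import Pool.Agent.Q130.TC.Stm

/-!
GEO and CMP: finite combinatorial geometry in the plane.
-/

set_option autoImplicit false

namespace Pool.Agent.Q216.TC

open MeasureTheory Set Metric Filter Topology
open Pool.Agent.Q130.TC

/-- finite Vitali covering -/
theorem vitali (s : ℂ → ℝ) : ∀ (N : ℕ) (Y : Finset ℂ), Y.card ≤ N → (∀ y ∈ Y, 0 < s y) →
    ∃ J : Finset ℂ, J ⊆ Y ∧
      (∀ y ∈ J, ∀ y' ∈ J, y ≠ y' → Disjoint (ball y (s y)) (ball y' (s y'))) ∧
      ∀ y ∈ Y, ∃ y' ∈ J, ‖y - y'‖ ≤ 2 * s y' := by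
  classical
  intro N
  induction N with
  | zero =>
    intro Y hY _
    have h1 : Y = ∅ := Finset.card_eq_zero.1 (by omega)
    subst h1
    exact ⟨∅, by simp, by simp, by simp⟩
  | succ N ih =>
    intro Y hY hs
    rcases Y.eq_empty_or_nonempty with rfl | hne
    · exact ⟨∅, by simp, by simp, by simp⟩
    obtain ⟨y0, hy0, hmax⟩ := Y.exists_max_image s hne
    set Y' := Y.filter (fun y => Disjoint (ball y (s y)) (ball y0 (s y0))) with hY'
    have h0 : y0 ∉ Y' := by
      intro h1
      have h2 := (Finset.mem_filter.1 h1).2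
      rw [disjoint_self] at h2
      have h3 : y0 ∈ ball y0 (s y0) := mem_ball_self (hs y0 hy0)
      rw [h2] at h3
      exact h3
    have hcard : Y'.card ≤ N := by
      have h1 : Y'.card < Y.card := Finset.card_lt_card
        ⟨Finset.filter_subset _ _, fun h => h0 (h hy0)⟩
      omega
    obtain ⟨J', hJ1, hJ2, hJ3⟩ := ih Y' hcard (fun y hy => hs y (Finset.mem_of_mem_filter y hy))
    refine ⟨insert y0 J', ?_, ?_, ?_⟩
    · intro y hy
      rcases Finset.mem_insert.1 hy with rfl | hy
      · exact hy0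
      · exact Finset.mem_of_mem_filter y (hJ1 hy)
    · intro y hy y' hy' hne'
      rcases Finset.mem_insert.1 hy with h1 | h1
      · rcases Finset.mem_insert.1 hy' with h2 | h2
        · exact absurd (h1.trans h2.symm) hne'
        · rw [h1]
          exact ((Finset.mem_filter.1 (hJ1 h2)).2).symm
      · rcases Finset.mem_insert.1 hy' with h2 | h2
        · rw [h2]
          exact (Finset.mem_filter.1 (hJ1 h1)).2
        · exact hJ2 y h1 y' h2 hne'
    · intro y hy
      by_cases hd : Disjoint (ball y (s y)) (ball y0 (s y0))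
      · obtain ⟨y', hy', h1⟩ := hJ3 y (Finset.mem_filter.2 ⟨hy, hd⟩)
        exact ⟨y', Finset.mem_insert_of_mem hy', h1⟩
      · refine ⟨y0, Finset.mem_insert_self _ _, ?_⟩
        rw [Set.not_disjoint_iff] at hd
        obtain ⟨w, hw1, hw2⟩ := hd
        rw [mem_ball, dist_eq_norm] at hw1 hw2
        have h1 : ‖y - y0‖ ≤ ‖w - y‖ + ‖w - y0‖ := by
          have h2 : y - y0 = (w - y0) - (w - y) := by ring
          rw [h2]
          refine (norm_sub_le _ _).trans ?_
          linarith
        have h2 := hmax y hy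
        linarith

theorem geo : S_GEO := by
  classical
  intro ε Y s hε hEC hs a ha b hb
  obtain ⟨J, hJ1, hJ2, hJ3⟩ := vitali s Y.card Y le_rfl (fun y hy => hε.trans_le (hs y hy))
  obtain ⟨n0, z0, hz0, hzn, hzY, hzs⟩ := hEC a ha b hb
  have hcen : ∀ y, ∃ y', y ∈ Y → y' ∈ J ∧ ‖y - y'‖ ≤ 2 * s y' := by
    intro y
    by_cases hy : y ∈ Y
    · obtain ⟨y', h1, h2⟩ := hJ3 y hy
      exact ⟨y', fun _ => ⟨h1, h2⟩⟩
    · exact ⟨0, fun h => absurd h hy⟩
  choose c hc using hcen
  have hex : ∃ n : ℕ, ∃ z : ℕ → ℂ, (∀ i ≤ n, z i ∈ J) ∧ ‖z 0 - a‖ ≤ 2 * s (z 0) ∧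
      ‖z n - b‖ ≤ 2 * s (z n) ∧ ∀ i < n, ‖z (i + 1) - z i‖ ≤ 3 * (s (z i) + s (z (i + 1))) := by
    refine ⟨n0, fun i => c (z0 i), fun i hi => (hc _ (hzY i hi)).1, ?_, ?_, ?_⟩
    · change ‖c (z0 0) - a‖ ≤ 2 * s (c (z0 0))
      rw [hz0, norm_sub_rev]
      exact (hc a ha).2
    · change ‖c (z0 n0) - b‖ ≤ 2 * s (c (z0 n0))
      rw [hzn, norm_sub_rev]
      exact (hc b hb).2
    · intro i hi
      have h1 := (hc _ (hzY i hi.le)).2
      have h2 := (hc _ (hzY (i + 1) hi)).2
      have h3 := hzs i hi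
      have h4 : ε ≤ s (c (z0 i)) := hs _ (hJ1 (hc _ (hzY i hi.le)).1)
      have h5 : ε ≤ s (c (z0 (i + 1))) := hs _ (hJ1 (hc _ (hzY (i + 1) hi)).1)
      have h6 : c (z0 (i + 1)) - c (z0 i) = (z0 i - c (z0 i)) - (z0 (i + 1) - c (z0 (i + 1))) +
          (z0 (i + 1) - z0 i) := by ring
      have h7 : ‖c (z0 (i + 1)) - c (z0 i)‖ ≤ ‖z0 i - c (z0 i)‖ +
          ‖z0 (i + 1) - c (z0 (i + 1))‖ + ‖z0 (i + 1) - z0 i‖ := by
        rw [h6]
        refine (norm_add_le _ _).trans ?_
        gcongr
        exact norm_sub_le _ _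
      simp only
      linarith
  obtain ⟨z, hz1, hz2, hz3, hz4⟩ := Nat.find_spec hex
  have hmin := fun m hm => Nat.find_min hex (m := m) hm
  set n := Nat.find hex with hn
  have hlt : ∀ i j, i < j → j ≤ n → z i ≠ z j := by
    intro i j hij hj heq
    refine hmin (n - (j - i)) (by omega)
      ⟨fun k => if k ≤ i then z k else z (k + (j - i)), ?_, ?_, ?_, ?_⟩
    · intro k hk
      simp only
      split_ifs with h
      · exact hz1 k (by omega)
      · exact hz1 _ (by omega)
    · simpa using hz2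
    · simp only
      split_ifs with h
      · have h1 : n - (j - i) = i := by omega
        have h2 : j = n := by omega
        rw [h1, heq, h2]
        exact hz3
      · have h1 : n - (j - i) + (j - i) = n := by omega
        rw [h1]
        exact hz3
    · intro k hk
      simp only
      by_cases h1 : k + 1 ≤ i
      · rw [if_pos h1, if_pos (by omega : k ≤ i)]
        exact hz4 k (by omega)
      · rw [if_neg h1]
        by_cases h2 : k ≤ i
        · have h3 : k = i := by omega
          subst h3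
          have h4 : k + 1 + (j - k) = j + 1 := by omega
          rw [if_pos le_rfl, h4, heq]
          exact hz4 j (by omega)
        · have h4 : k + 1 + (j - i) = (k + (j - i)) + 1 := by omega
          rw [if_neg h2, h4]
          exact hz4 _ (by omega)
  refine ⟨J, n, z, hJ1, hJ2, hz1, ?_, hz2, hz3, hz4⟩
  intro i hi j hj hij
  rcases lt_trichotomy i j with h | h | h
  · exact absurd hij (hlt i j h hj)
  · exact h
  · exact absurd hij.symm (hlt j i h hi)

theorem chain_EC {ε : ℝ} (z : ℕ → ℂ) (k : ℕ) (h : ∀ i < k, ‖z (i + 1) - z i‖ ≤ ε) :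
    EC ε ((Finset.range (k + 1)).image z) := by
  classical
  have key : ∀ i j, i ≤ j → j ≤ k → ∃ (n : ℕ) (w : ℕ → ℂ), w 0 = z i ∧ w n = z j ∧
      (∀ t ≤ n, w t ∈ (Finset.range (k + 1)).image z) ∧ ∀ t < n, ‖w (t + 1) - w t‖ ≤ ε := by
    intro i j hij hj
    refine ⟨j - i, fun t => z (i + t), by simp, by simp only; congr 1; omega, ?_, ?_⟩
    · intro t ht
      exact Finset.mem_image_of_mem z (Finset.mem_range.2 (by omega))
    · intro t ht
      exact h (i + t) (by omega)
  have key2 : ∀ i j, i ≤ j → j ≤ k → ∃ (n : ℕ) (w : ℕ → ℂ), w 0 = z j ∧ w n = z i ∧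
      (∀ t ≤ n, w t ∈ (Finset.range (k + 1)).image z) ∧ ∀ t < n, ‖w (t + 1) - w t‖ ≤ ε := by
    intro i j hij hj
    refine ⟨j - i, fun t => z (j - t), by simp, by simp only; congr 1; omega, ?_, ?_⟩
    · intro t ht
      exact Finset.mem_image_of_mem z (Finset.mem_range.2 (by omega))
    · intro t ht
      simp only
      rw [norm_sub_rev]
      have h1 : j - t = (j - (t + 1)) + 1 := by omega
      rw [h1]
      exact h _ (by omega)
  intro a ha b hb
  obtain ⟨i, hi, rfl⟩ := Finset.mem_image.1 ha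
  obtain ⟨j, hj, rfl⟩ := Finset.mem_image.1 hb
  rw [Finset.mem_range] at hi hj
  rcases le_total i j with hij | hij
  · exact key i j hij (by omega)
  · exact key2 j i hij (by omega)

theorem cmp : S_CMP := by
  classical
  intro ε R Y y b hε hR hEC hy hb hyb
  obtain ⟨n, z, hz0, hzn, hzY, hzs⟩ := hEC y hy b hb
  by_cases hex : ∃ m, m ≤ n ∧ R < ‖z m - y‖
  · obtain ⟨hm1, hm2⟩ := Nat.find_spec hex
    have hmin := fun m hm => Nat.find_min hex (m := m) hm
    set m := Nat.find hex with hm
    have hm0 : m ≠ 0 := by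
      intro h
      rw [h, hz0, sub_self, norm_zero] at hm2
      linarith
    obtain ⟨k, hk⟩ : ∃ k, m = k + 1 := ⟨m - 1, by omega⟩
    refine ⟨(Finset.range (k + 1)).image z, ?_, ?_, chain_EC z k (fun i hi => hzs i (by omega)),
      ?_, ?_⟩
    · intro w hw
      obtain ⟨i, hi, rfl⟩ := Finset.mem_image.1 hw
      rw [Finset.mem_range] at hi
      exact hzY i (by omega)
    · rw [← hz0]
      exact Finset.mem_image_of_mem z (Finset.mem_range.2 (by omega))
    · intro w hw
      obtain ⟨i, hi, rfl⟩ := Finset.mem_image.1 hw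
      rw [Finset.mem_range] at hi
      by_contra h
      exact hmin i (by omega) ⟨by omega, not_le.1 h⟩
    · refine ⟨z k, Finset.mem_image_of_mem z (Finset.mem_range.2 (by omega)), ?_⟩
      have h1 := hzs k (by omega)
      rw [hk] at hm2
      have h2 : ‖z (k + 1) - y‖ ≤ ‖z (k + 1) - z k‖ + ‖z k - y‖ := by
        have h3 : z (k + 1) - y = (z (k + 1) - z k) + (z k - y) := by ring
        rw [h3]
        exact norm_add_le _ _
      linarith
  · push Not at hex
    refine ⟨(Finset.range (n + 1)).image z, ?_, ?_, chain_EC z n hzs, ?_, ?_⟩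
    · intro w hw
      obtain ⟨i, hi, rfl⟩ := Finset.mem_image.1 hw
      rw [Finset.mem_range] at hi
      exact hzY i (by omega)
    · rw [← hz0]
      exact Finset.mem_image_of_mem z (Finset.mem_range.2 (by omega))
    · intro w hw
      obtain ⟨i, hi, rfl⟩ := Finset.mem_image.1 hw
      rw [Finset.mem_range] at hi
      exact hex i (by omega)
    · refine ⟨z n, Finset.mem_image_of_mem z (Finset.mem_range.2 (by omega)), ?_⟩
      rw [hzn]
      linarith

end Pool.Agent.Q216.TC
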