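import Pool.Agent.Q130.TC.Stm2

/-!
SRK: near a point of the essential spectrum `T - a` is not surjective modulo the range of a compact
operator.
-/

set_option autoImplicit false

namespace Pool.Agent.Q216.TC

open MeasureTheory Set Metric Filter Topology
open scoped InnerProductSpace ENNReal NNReal ComplexConjugate
open Pool.Agent.Q130.TC
open Pool.Agent.Y271.RO (Ess)

variable {H : Type} [NormedAddCommGroup H] [InnerProductSpace ℂ H]

/-- weakly null sequences are uniformly null on compact sets -/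
theorem weak_compact {e : ℕ → H} (he1 : ∀ n, ‖e n‖ = 1)
    (hew : ∀ w, Tendsto (fun n => ⟪w, e n⟫_ℂ) atTop (𝓝 0)) {A : Set H} (hA : IsCompact A)
    {x : ℕ → H} (hx : ∀ n, x n ∈ A) : Tendsto (fun n => ⟪x n, e n⟫_ℂ) atTop (𝓝 0) := by
  rw [Metric.tendsto_atTop]
  intro ε hε
  obtain ⟨t, htA, htf, htc⟩ := hA.finite_cover_balls (half_pos hε)
  have h1 : ∀ᶠ n in atTop, ∀ c ∈ t, ‖⟪c, e n⟫_ℂ‖ < ε / 2 := by
    rw [Filter.eventually_all_finite htf]
    intro c _
    have h2 := (hew c).norm
    rw [norm_zero] at h2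
    exact h2.eventually (gt_mem_nhds (half_pos hε))
  obtain ⟨N, hN⟩ := eventually_atTop.1 h1
  refine ⟨N, fun n hn => ?_⟩
  obtain ⟨c, hc, hxc⟩ := mem_iUnion₂.1 (htc (hx n))
  rw [dist_zero_right]
  have h2 : ⟪x n, e n⟫_ℂ = ⟪x n - c, e n⟫_ℂ + ⟪c, e n⟫_ℂ := by
    rw [inner_sub_left]
    ring
  have h3 : ‖⟪x n - c, e n⟫_ℂ‖ < ε / 2 := by
    refine (norm_inner_le_norm _ _).trans_lt ?_
    rw [he1, mul_one, ← dist_eq_norm]
    exact hxc
  rw [h2]
  refine (norm_add_le _ _).trans_lt ?_
  linarith [hN n hn c hc]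

/-- the adjoint of a compact operator maps weakly null sequences to null sequences -/
theorem adj_compact [CompleteSpace H] {K : H →L[ℂ] H} (hK : IsCompactOperator (⇑K)) {e : ℕ → H}
    (he1 : ∀ n, ‖e n‖ = 1) (hew : ∀ w, Tendsto (fun n => ⟪w, e n⟫_ℂ) atTop (𝓝 0)) :
    Tendsto (fun n => ‖ContinuousLinearMap.adjoint K (e n)‖) atTop (𝓝 0) := by
  set y : ℕ → H := fun n => ContinuousLinearMap.adjoint K (e n) with hy
  have hyb : ∀ n, ‖y n‖ ≤ ‖ContinuousLinearMap.adjoint K‖ := fun n => by
    have := (ContinuousLinearMap.adjoint K).le_opNorm (e n)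
    rwa [he1, mul_one] at this
  have hc : IsCompact (closure (K '' closedBall 0 ‖ContinuousLinearMap.adjoint K‖)) :=
    hK.isCompact_closure_image_closedBall _
  have h1 := weak_compact he1 hew hc (x := fun n => K (y n)) (fun n =>
    subset_closure (mem_image_of_mem K (mem_closedBall_zero_iff.2 (hyb n))))
  have h2 : ∀ n, ‖y n‖ ^ 2 = ‖⟪K (y n), e n⟫_ℂ‖ := by
    intro n
    have h3 : ⟪K (y n), e n⟫_ℂ = ⟪y n, y n⟫_ℂ := by
      rw [hy]
      rw [ContinuousLinearMap.adjoint_inner_right]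
    rw [h3, inner_self_eq_norm_sq_to_K]
    simp
  have h3 : Tendsto (fun n => ‖y n‖ ^ 2) atTop (𝓝 0) := by
    have h4 := h1.norm
    rw [norm_zero] at h4
    exact h4.congr fun n => (h2 n).symm
  have h4 := (Real.continuous_sqrt.tendsto 0).comp h3
  rw [Real.sqrt_zero] at h4
  refine h4.congr fun n => ?_
  simp only [Function.comp_apply]
  rw [Real.sqrt_sq (norm_nonneg _)]

theorem srk : S_SRK := by
  intro H _ _ _ N K a hK hEss hsurj
  obtain ⟨e, he1, hew, -, hea⟩ := hEss
  let L : (H × H) →L[ℂ] H :=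
    ((N + K) - a • ContinuousLinearMap.id ℂ H).comp (ContinuousLinearMap.fst ℂ H H) +
      K.comp (ContinuousLinearMap.snd ℂ H H)
  have hL : ∀ (W W' : H), L (W, W') = (N + K) W - a • W + K W' := by
    intro W W'
    simp [L]
  have hs : Function.Surjective L := by
    intro x
    obtain ⟨W, c, h⟩ := hsurj x
    exact ⟨(W, c), by rw [hL, ← h]⟩
  obtain ⟨C, hC0, hC⟩ := L.exists_preimage_norm_le hs
  choose p hp hpn using fun n => hC (e n)
  have hb : ∀ n, ‖p n‖ ≤ C := by
    intro n
    have := hpn n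
    rwa [he1, mul_one] at this
  have hW : ∀ n, ‖(p n).1‖ ≤ C := fun n => (norm_fst_le _).trans (hb n)
  have hc : ∀ n, ‖(p n).2‖ ≤ C := fun n => (norm_snd_le _).trans (hb n)
  have key : ∀ n, (1 : ℝ) ≤ ‖ContinuousLinearMap.adjoint N (e n) - (conj a) • e n‖ * C +
      ‖ContinuousLinearMap.adjoint K (e n)‖ * (C + C) := by
    intro n
    have h1 : ⟪e n, e n⟫_ℂ = ⟪ContinuousLinearMap.adjoint N (e n) - (conj a) • e n, (p n).1⟫_ℂ +
        (⟪ContinuousLinearMap.adjoint K (e n), (p n).1⟫_ℂ +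
          ⟪ContinuousLinearMap.adjoint K (e n), (p n).2⟫_ℂ) := by
      have h2 : e n = (N + K) (p n).1 - a • (p n).1 + K (p n).2 := by
        rw [← hL, Prod.mk.eta, hp]
      calc ⟪e n, e n⟫_ℂ = ⟪e n, (N + K) (p n).1 - a • (p n).1 + K (p n).2⟫_ℂ := by rw [← h2]
        _ = _ := by
          rw [add_apply, inner_sub_left, ContinuousLinearMap.adjoint_inner_left,
            ContinuousLinearMap.adjoint_inner_left, ContinuousLinearMap.adjoint_inner_left,
            inner_smul_left, inner_add_right, inner_sub_right, inner_add_right, inner_smul_right]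
          simp only [RingHomCompTriple.comp_apply, RingHom.id_apply]
          ring
    have h4 : (1 : ℝ) = ‖⟪e n, e n⟫_ℂ‖ := by
      rw [inner_self_eq_norm_sq_to_K, he1]
      simp
    rw [h4, h1]
    refine (norm_add_le _ _).trans (add_le_add ?_ ?_)
    · exact (norm_inner_le_norm _ _).trans (mul_le_mul_of_nonneg_left (hW n) (norm_nonneg _))
    · rw [mul_add]
      refine (norm_add_le _ _).trans (add_le_add ?_ ?_)
      · exact (norm_inner_le_norm _ _).trans (mul_le_mul_of_nonneg_left (hW n) (norm_nonneg _))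
      · exact (norm_inner_le_norm _ _).trans (mul_le_mul_of_nonneg_left (hc n) (norm_nonneg _))
  have hlim : Tendsto (fun n => ‖ContinuousLinearMap.adjoint N (e n) - (conj a) • e n‖ * C +
      ‖ContinuousLinearMap.adjoint K (e n)‖ * (C + C)) atTop (𝓝 (0 * C + 0 * (C + C))) := by
    apply Tendsto.add
    · apply Tendsto.mul_const
      have := hea.norm
      rwa [norm_zero] at this
    · exact (adj_compact hK he1 hew).mul_const _
  rw [zero_mul, zero_mul, add_zero] at hlim
  have := ge_of_tendsto hlim (Eventually.of_forall key)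
  linarith

end Pool.Agent.Q216.TC
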